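import Pool.Agent.MP_a88b1d_nt.H42.Spec

/-! Row IRR: `pp` and `qq` are irreducible of degrees 2 and 6. -/

open Polynomial

namespace Pool.Agent.MP_a88b1d_nt.H85

open Pool.Agent.MP_a88b1d_nt.H42

theorem natDegree_ofN_eq {n k : ℕ} (h1 : 2 ^ k ≤ n) (h2 : n < 2 ^ (k + 1)) :
    (ofN n).natDegree = k :=
  le_antisymm (natDegree_ofN_le h2) (le_natDegree_ofN h1).1

theorem irr_of_check {n k : ℕ} (hk : 1 ≤ k) (h1 : 2 ^ k ≤ n) (h2 : n < 2 ^ (k + 1))
    (hc : ∀ a < 2 ^ (k + 1), ∀ b < 2 ^ (k + 1), clmul (k + 1) a b = n → a = 1 ∨ b = 1) :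
    Irreducible (ofN n) := by
  have hd := natDegree_ofN_eq h1 h2
  have h0 : ofN n ≠ 0 := (le_natDegree_ofN h1).2
  refine ⟨?_, ?_⟩
  · intro hu
    have := natDegree_eq_zero_of_isUnit hu
    omega
  · intro f g hfg
    have hf0 : f ≠ 0 := by rintro rfl; exact h0 (by simpa using hfg)
    have hg0 : g ≠ 0 := by rintro rfl; exact h0 (by simpa using hfg)
    have hs : f.natDegree + g.natDegree = k := by rw [← natDegree_mul hf0 hg0, ← hfg, hd]
    obtain ⟨a, ha, rfl⟩ := exists_ofN (f := f) (k := k + 1)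
      ((natDegree_lt_iff_degree_lt hf0).1 (by omega))
    obtain ⟨b, hb, rfl⟩ := exists_ofN (f := g) (k := k + 1)
      ((natDegree_lt_iff_degree_lt hg0).1 (by omega))
    have : clmul (k + 1) a b = n := ofN_injective (by rw [ofN_clmul _ _ _ hb, hfg])
    rcases hc a ha b hb this with rfl | rfl
    · left; rw [ofN_one]; exact isUnit_one
    · right; rw [ofN_one]; exact isUnit_one

theorem chk7 : ∀ a < 2 ^ (2 + 1), ∀ b < 2 ^ (2 + 1), clmul (2 + 1) a b = 7 → a = 1 ∨ b = 1 := by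
  decide +kernel

theorem chk109 :
    ∀ a < 2 ^ (6 + 1), ∀ b < 2 ^ (6 + 1), clmul (6 + 1) a b = 109 → a = 1 ∨ b = 1 := by
  decide +kernel

theorem irr : IRR := by
  refine ⟨?_, ?_, ?_, ?_⟩
  · rw [pp_eq]; exact irr_of_check (k := 2) (by norm_num) (by norm_num) (by norm_num) chk7
  · rw [pp_eq]; exact natDegree_ofN_eq (k := 2) (by norm_num) (by norm_num)
  · rw [qq_eq]; exact irr_of_check (k := 6) (by norm_num) (by norm_num) (by norm_num) chk109
  · rw [qq_eq]; exact natDegree_ofN_eq (k := 6) (by norm_num) (by norm_num)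

end Pool.Agent.MP_a88b1d_nt.H85
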